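import Mathlib

/-! Fourier facts on a half-unit interval used for the exponential Riesz basis. -/

open MeasureTheory Complex Set

namespace Pool.Agent.Helper63.RieszAux

/-- `ec a x = exp (2 π i a x)`. -/
noncomputable def ec (a x : ℝ) : ℂ := exp (2 * Real.pi * I * (a * x))

theorem ec_add (a b x : ℝ) : ec (a + b) x = ec a x * ec b x := by
  unfold ec
  rw [← Complex.exp_add]
  congr 1
  push_cast
  ring

theorem ec_zero (x : ℝ) : ec 0 x = 1 := by simp [ec]

theorem norm_ec (a x : ℝ) : ‖ec a x‖ = 1 := by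
  unfold ec
  rw [Complex.norm_exp]
  simp

theorem star_ec (a x : ℝ) : (starRingEnd ℂ) (ec a x) = ec (-a) x := by
  unfold ec
  rw [← Complex.exp_conj]
  congr 1
  simp only [map_mul, Complex.conj_I, Complex.conj_ofReal, map_ofNat]
  push_cast
  ring

theorem ec_neg_mul (a x : ℝ) : ec (-a) x * ec a x = 1 := by
  rw [← ec_add]; simp [ec_zero]

theorem continuous_ec (a : ℝ) : Continuous (ec a) := by
  unfold ec
  fun_prop

theorem ec_half (a x : ℝ) : ec a (x + 1 / 2) = ec a x * exp (Real.pi * I * a) := by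
  unfold ec
  rw [← Complex.exp_add]
  congr 1
  push_cast
  ring

theorem ec_int_half (k : ℤ) (x : ℝ) : ec (2 * k) (x + 1 / 2) = ec (2 * k) x := by
  rw [ec_half]
  have : exp (Real.pi * I * ((2 * k : ℝ) : ℂ)) = 1 := by
    rw [Complex.exp_eq_one_iff]
    exact ⟨k, by push_cast; ring⟩
  rw [this, mul_one]

/-- orthogonality on the half-unit interval -/
theorem integral_ec (t : ℝ) (k : ℤ) :
    ∫ x in t..t + 1 / 2, ec (2 * k) x = if k = 0 then 1 / 2 else 0 := by
  split_ifs with h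
  · subst h
    simp [ec_zero]
  · have hk : (4 * Real.pi * I * k : ℂ) ≠ 0 := by
      simp [Real.pi_ne_zero, h]
    have h1 : ∀ x : ℝ, ec (2 * k) x = exp ((4 * Real.pi * I * k) * x) := by
      intro x
      unfold ec
      congr 1
      push_cast
      ring
    simp_rw [h1]
    rw [integral_exp_mul_complex hk]
    have h2 : exp ((4 * Real.pi * I * k) * ((t + 1 / 2 : ℝ) : ℂ))
        = exp ((4 * Real.pi * I * k) * (t : ℂ)) := by
      rw [Complex.exp_eq_exp_iff_exists_int]
      exact ⟨k, by push_cast; ring⟩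
    rw [h2, sub_self, zero_div]

/-- finite Parseval on the half-unit interval -/
theorem integral_norm_sq {κ : Type*} (t : ℝ) (S : Finset κ) (m : κ → ℤ)
    (hm : Set.InjOn m S) (a : κ → ℂ) :
    ∫ x in t..t + 1 / 2, ‖∑ j ∈ S, a j * ec (2 * m j) x‖ ^ 2 = (1 / 2) * ∑ j ∈ S, ‖a j‖ ^ 2 := by
  classical
  have key : ∀ x : ℝ, ((‖∑ j ∈ S, a j * ec (2 * m j) x‖ ^ 2 : ℝ) : ℂ)
      = ∑ p ∈ S ×ˢ S, (a p.1 * (starRingEnd ℂ) (a p.2)) * ec (2 * (m p.1 - m p.2 : ℤ)) x := by
    intro x
    rw [← Complex.normSq_eq_norm_sq, Complex.normSq_eq_conj_mul_self, mul_comm, map_sum,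
      Finset.sum_mul_sum, Finset.sum_product]
    refine Finset.sum_congr rfl fun j _ => Finset.sum_congr rfl fun l _ => ?_
    rw [map_mul, star_ec]
    have : ec (2 * ((m j - m l : ℤ) : ℝ)) x = ec (2 * m j) x * ec (-(2 * m l)) x := by
      rw [← ec_add]
      congr 1
      push_cast
      ring
    rw [this]
    ring
  have h : ((∫ x in t..t + 1 / 2, ‖∑ j ∈ S, a j * ec (2 * m j) x‖ ^ 2 : ℝ) : ℂ)
      = ((1 / 2 * ∑ j ∈ S, ‖a j‖ ^ 2 : ℝ) : ℂ) := by
    rw [← intervalIntegral.integral_ofReal]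
    simp_rw [key]
    rw [intervalIntegral.integral_finsetSum (fun p _ =>
      ((continuous_ec _).intervalIntegrable t (t + 1 / 2)).const_mul _)]
    simp_rw [intervalIntegral.integral_const_mul, integral_ec]
    rw [Finset.sum_product, Finset.mul_sum, Complex.ofReal_sum]
    refine Finset.sum_congr rfl fun j hj => ?_
    rw [Finset.sum_eq_single j]
    · rw [if_pos (sub_self _), Complex.mul_conj, Complex.normSq_eq_norm_sq]
      push_cast
      ring
    · intro l hl hlj
      rw [if_neg, mul_zero]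
      intro h0
      exact hlj (hm hl hj (sub_eq_zero.1 h0).symm)
    · intro h0; exact absurd hj h0
  exact_mod_cast h

/-- coefficient functional on the half-unit interval -/
noncomputable def co (t : ℝ) (k : ℤ) (φ : ℝ → ℂ) : ℂ :=
  ∫ x in t..t + 1 / 2, ec (-(2 * k)) x * φ x

/-- Parseval on the half-unit interval -/
theorem hasSum_co (t : ℝ) (φ : ℝ → ℂ)
    (hφ : MemLp φ 2 (volume.restrict (Ioc t (t + 1 / 2)))) :
    HasSum (fun k : ℤ => ‖co t k φ‖ ^ 2) ((1 / 2) * ∫ x in t..t + 1 / 2, ‖φ x‖ ^ 2) := by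
  have hab : t < t + 1 / 2 := by linarith
  have h := hasSum_sq_fourierCoeffOn hab hφ
  have h2 := h.mul_left (1 / 4)
  have e1 : t + 1 / 2 - t = (1 / 2 : ℝ) := by ring
  have h3 : (1 / 4 : ℝ) * ((t + 1 / 2 - t)⁻¹ • ∫ x in t..t + 1 / 2, ‖φ x‖ ^ 2)
      = (1 / 2) * ∫ x in t..t + 1 / 2, ‖φ x‖ ^ 2 := by
    rw [smul_eq_mul, e1]
    ring
  rw [h3] at h2
  have h4 : (fun k : ℤ => ‖co t k φ‖ ^ 2) = fun k => 1 / 4 * ‖fourierCoeffOn hab φ k‖ ^ 2 := by
    funext k
    rw [fourierCoeffOn_eq_integral]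
    have h5 : ∫ x in t..t + 1 / 2, fourier (-k) (x : AddCircle (t + 1 / 2 - t)) • φ x
        = co t k φ := by
      unfold co
      congr 1
      ext x
      rw [fourier_coe_apply, smul_eq_mul]
      congr 1
      unfold ec
      congr 1
      push_cast
      have : ((t : ℂ) + 1 / 2 - t) = 1 / 2 := by ring
      rw [this]
      ring
    rw [h5, norm_smul]
    have h6 : ‖(1 / (t + 1 / 2 - t) : ℝ)‖ = 2 := by
      rw [e1]; norm_num
    rw [h6]
    ring
  rw [h4]
  exact h2

end Pool.Agent.Helper63.RieszAux
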