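import Pool.Agent.Helper63.RieszCore

/-! Integrated two-sided bounds and the completeness argument. -/

open MeasureTheory Complex Set

namespace Pool.Agent.Helper63.RieszBounds

open Pool.Agent.Helper63.RieszAux Pool.Agent.Helper63.RieszCore

theorem split_half {φ : ℝ → ℝ} (t : ℝ) (h1 : IntervalIntegrable φ volume t (t + 1 / 2))
    (h2 : IntervalIntegrable φ volume (t + 1 / 2) (t + 1)) :
    ∫ x in t..t + 1, φ x = (∫ x in t..t + 1 / 2, φ x) + ∫ x in t..t + 1 / 2, φ (x + 1 / 2) := by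
  rw [← intervalIntegral.integral_add_adjacent_intervals h1 h2,
    intervalIntegral.integral_comp_add_right]
  congr 2
  ring

theorem split_half_c {φ : ℝ → ℂ} (t : ℝ) (h1 : IntervalIntegrable φ volume t (t + 1 / 2))
    (h2 : IntervalIntegrable φ volume (t + 1 / 2) (t + 1)) :
    ∫ x in t..t + 1, φ x = (∫ x in t..t + 1 / 2, φ x) + ∫ x in t..t + 1 / 2, φ (x + 1 / 2) := by
  rw [← intervalIntegral.integral_add_adjacent_intervals h1 h2,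
    intervalIntegral.integral_comp_add_right]
  congr 2
  ring

variable (S : Finset ℤ) (a0 a1 a2 a3 : ℤ → ℂ)

theorem ii {φ : ℝ → ℝ} (h : Continuous φ) (a b : ℝ) : IntervalIntegrable φ volume a b :=
  h.intervalIntegrable a b

theorem int4 {u1 u2 u3 u4 : ℝ → ℝ} (h1 : Continuous u1) (h2 : Continuous u2)
    (h3 : Continuous u3) (h4 : Continuous u4) (a b : ℝ) :
    ∫ x in a..b, (u1 x + u2 x + u3 x + u4 x)
      = (∫ x in a..b, u1 x) + (∫ x in a..b, u2 x) + (∫ x in a..b, u3 x) + ∫ x in a..b, u4 x := by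
  rw [intervalIntegral.integral_add (f := fun x => u1 x + u2 x + u3 x) (g := u4)
      (ii (by fun_prop) _ _) (ii h4 _ _),
    intervalIntegral.integral_add (f := fun x => u1 x + u2 x) (g := u3)
      (ii (by fun_prop) _ _) (ii h3 _ _),
    intervalIntegral.integral_add (f := u1) (g := u2) (ii h1 _ _) (ii h2 _ _)]

theorem int_low {u1 u2 u3 u4 p1 p2 q : ℝ → ℝ} {α β : ℝ} (h1 : Continuous u1) (h2 : Continuous u2)
    (h3 : Continuous u3) (h4 : Continuous u4) (k1 : Continuous p1) (k2 : Continuous p2)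
    (hq : Continuous q) {a b : ℝ} (hab : a ≤ b)
    (pt : ∀ x, p1 x + p2 x ≤ α * (u1 x + u2 x + u3 x + u4 x) + β * q x) :
    (∫ x in a..b, p1 x) + (∫ x in a..b, p2 x)
      ≤ α * (∫ x in a..b, (u1 x + u2 x + u3 x + u4 x)) + β * ∫ x in a..b, q x := by
  rw [← intervalIntegral.integral_add (ii k1 _ _) (ii k2 _ _),
    ← intervalIntegral.integral_const_mul, ← intervalIntegral.integral_const_mul,
    ← intervalIntegral.integral_add (f := fun x => α * (u1 x + u2 x + u3 x + u4 x))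
      (g := fun x => β * q x) (ii (by fun_prop) _ _) (ii (by fun_prop) _ _)]
  exact intervalIntegral.integral_mono hab (ii (by fun_prop) _ _) (ii (by fun_prop) _ _) pt

theorem int_up {u1 u2 u3 u4 p0 p1 p2 p3 q : ℝ → ℝ} {α β γ : ℝ} (h1 : Continuous u1)
    (h2 : Continuous u2) (h3 : Continuous u3) (h4 : Continuous u4)
    (k0 : Continuous p0) (k1 : Continuous p1) (k2 : Continuous p2) (k3 : Continuous p3)
    (hq : Continuous q) {a b : ℝ} (hab : a ≤ b)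
    (pt : ∀ x, u1 x + u2 x + u3 x + u4 x
      ≤ α * (p0 x + p1 x) + β * (p2 x + p3 x) + γ * q x) :
    (∫ x in a..b, (u1 x + u2 x + u3 x + u4 x))
      ≤ α * ((∫ x in a..b, p0 x) + ∫ x in a..b, p1 x)
        + β * ((∫ x in a..b, p2 x) + ∫ x in a..b, p3 x) + γ * ∫ x in a..b, q x := by
  rw [← intervalIntegral.integral_add (ii k0 _ _) (ii k1 _ _),
    ← intervalIntegral.integral_add (ii k2 _ _) (ii k3 _ _),
    ← intervalIntegral.integral_const_mul, ← intervalIntegral.integral_const_mul,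
    ← intervalIntegral.integral_const_mul,
    ← intervalIntegral.integral_add (f := fun x => α * (p0 x + p1 x))
      (g := fun x => β * (p2 x + p3 x)) (ii (by fun_prop) _ _) (ii (by fun_prop) _ _),
    ← intervalIntegral.integral_add (f := fun x => α * (p0 x + p1 x) + β * (p2 x + p3 x))
      (g := fun x => γ * q x) (ii (by fun_prop) _ _) (ii (by fun_prop) _ _)]
  exact intervalIntegral.integral_mono hab (ii (by fun_prop) _ _) (ii (by fun_prop) _ _) pt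

theorem fourSum (t : ℝ) :
    (∫ x in t..t + 1, ‖fS S a0 a1 a2 a3 x‖ ^ 2) + (∫ x in t..t + 1, ‖gS S a0 a1 a2 a3 x‖ ^ 2)
      = ∫ x in t..t + 1 / 2, (‖fS S a0 a1 a2 a3 x‖ ^ 2 + ‖fS S a0 a1 a2 a3 (x + 1 / 2)‖ ^ 2
        + ‖gS S a0 a1 a2 a3 x‖ ^ 2 + ‖gS S a0 a1 a2 a3 (x + 1 / 2)‖ ^ 2) := by
  have cf : Continuous fun x => ‖fS S a0 a1 a2 a3 x‖ ^ 2 := (continuous_fS S a0 a1 a2 a3).norm.pow 2
  have cg : Continuous fun x => ‖gS S a0 a1 a2 a3 x‖ ^ 2 := (continuous_gS S a0 a1 a2 a3).norm.pow 2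
  have cf2 : Continuous fun x => ‖fS S a0 a1 a2 a3 (x + 1 / 2)‖ ^ 2 :=
    cf.comp (continuous_id.add continuous_const)
  have cg2 : Continuous fun x => ‖gS S a0 a1 a2 a3 (x + 1 / 2)‖ ^ 2 :=
    cg.comp (continuous_id.add continuous_const)
  rw [split_half t (ii cf _ _) (ii cf _ _), split_half t (ii cg _ _) (ii cg _ _)]
  rw [int4 cf cf2 cg cg2]
  ring

theorem riesz_low (t : ℝ) :
    ∑ k ∈ S, (‖a0 k‖ ^ 2 + ‖a1 k‖ ^ 2 + ‖a2 k‖ ^ 2 + ‖a3 k‖ ^ 2)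
      ≤ 482 * ((∫ x in t..t + 1, ‖fS S a0 a1 a2 a3 x‖ ^ 2)
        + ∫ x in t..t + 1, ‖gS S a0 a1 a2 a3 x‖ ^ 2) := by
  rw [fourSum]
  have cf : Continuous fun x => ‖fS S a0 a1 a2 a3 x‖ ^ 2 := (continuous_fS S a0 a1 a2 a3).norm.pow 2
  have cg : Continuous fun x => ‖gS S a0 a1 a2 a3 x‖ ^ 2 := (continuous_gS S a0 a1 a2 a3).norm.pow 2
  have cf2 : Continuous fun x => ‖fS S a0 a1 a2 a3 (x + 1 / 2)‖ ^ 2 :=
    cf.comp (continuous_id.add continuous_const)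
  have cg2 : Continuous fun x => ‖gS S a0 a1 a2 a3 (x + 1 / 2)‖ ^ 2 :=
    cg.comp (continuous_id.add continuous_const)
  have cP : ∀ a : ℤ → ℂ, Continuous fun x => ‖PS S a x‖ ^ 2 :=
    fun a => (continuous_PS S a).norm.pow 2
  have cQ : Continuous fun x => ‖QS S a2 a3 x‖ ^ 2 := (continuous_QS S a2 a3).norm.pow 2
  set I4 := ∫ x in t..t + 1 / 2, (‖fS S a0 a1 a2 a3 x‖ ^ 2 + ‖fS S a0 a1 a2 a3 (x + 1 / 2)‖ ^ 2
        + ‖gS S a0 a1 a2 a3 x‖ ^ 2 + ‖gS S a0 a1 a2 a3 (x + 1 / 2)‖ ^ 2) with hI4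
  have hle : t ≤ t + 1 / 2 := by linarith
  have pt : ∀ x, (‖PS S a2 x‖ ^ 2 + ‖PS S a3 x‖ ^ 2
        ≤ 40 / 3 * (‖fS S a0 a1 a2 a3 x‖ ^ 2 + ‖fS S a0 a1 a2 a3 (x + 1 / 2)‖ ^ 2
        + ‖gS S a0 a1 a2 a3 x‖ ^ 2 + ‖gS S a0 a1 a2 a3 (x + 1 / 2)‖ ^ 2)
        + 5 / 6 * ‖QS S a2 a3 x‖ ^ 2) ∧
      (‖PS S a0 x‖ ^ 2 + ‖PS S a1 x‖ ^ 2
        ≤ (‖fS S a0 a1 a2 a3 x‖ ^ 2 + ‖fS S a0 a1 a2 a3 (x + 1 / 2)‖ ^ 2
        + ‖gS S a0 a1 a2 a3 x‖ ^ 2 + ‖gS S a0 a1 a2 a3 (x + 1 / 2)‖ ^ 2)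
        + 2 * ‖QS S a2 a3 x‖ ^ 2) := by
    intro x
    have h := pointwise_low (PS S a0 x) (ec 1 x * PS S a1 x) (ec (1 / 3) x * PS S a2 x)
      (ec (-(1 / 3)) x * PS S a3 x) (QS S a2 a3 x) _ _ _ _
      (fS_one S a0 a1 a2 a3 x) (fS_two S a0 a1 a2 a3 x) (gS_one S a0 a1 a2 a3 x)
      (gS_two S a0 a1 a2 a3 x)
    simpa only [norm_mul, norm_ec, one_mul] using h
  have i1 := int_low cf cf2 cg cg2 (cP a2) (cP a3) cQ hle fun x => (pt x).1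
  have i2 := int_low (α := 1) cf cf2 cg cg2 (cP a0) (cP a1) cQ hle
    fun x => by rw [one_mul]; exact (pt x).2
  rw [← hI4, int_PS, int_PS, int_QS] at i1 i2
  rw [Finset.sum_add_distrib, Finset.sum_add_distrib, Finset.sum_add_distrib]
  linarith

theorem riesz_up (t : ℝ) :
    ((∫ x in t..t + 1, ‖fS S a0 a1 a2 a3 x‖ ^ 2) + ∫ x in t..t + 1, ‖gS S a0 a1 a2 a3 x‖ ^ 2)
      ≤ 8 * ∑ k ∈ S, (‖a0 k‖ ^ 2 + ‖a1 k‖ ^ 2 + ‖a2 k‖ ^ 2 + ‖a3 k‖ ^ 2) := by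
  rw [fourSum]
  have cf : Continuous fun x => ‖fS S a0 a1 a2 a3 x‖ ^ 2 := (continuous_fS S a0 a1 a2 a3).norm.pow 2
  have cg : Continuous fun x => ‖gS S a0 a1 a2 a3 x‖ ^ 2 := (continuous_gS S a0 a1 a2 a3).norm.pow 2
  have cf2 : Continuous fun x => ‖fS S a0 a1 a2 a3 (x + 1 / 2)‖ ^ 2 :=
    cf.comp (continuous_id.add continuous_const)
  have cg2 : Continuous fun x => ‖gS S a0 a1 a2 a3 (x + 1 / 2)‖ ^ 2 :=
    cg.comp (continuous_id.add continuous_const)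
  have cP : ∀ a : ℤ → ℂ, Continuous fun x => ‖PS S a x‖ ^ 2 :=
    fun a => (continuous_PS S a).norm.pow 2
  have cQ : Continuous fun x => ‖QS S a2 a3 x‖ ^ 2 := (continuous_QS S a2 a3).norm.pow 2
  have hle : t ≤ t + 1 / 2 := by linarith
  have pt : ∀ x, (‖fS S a0 a1 a2 a3 x‖ ^ 2 + ‖fS S a0 a1 a2 a3 (x + 1 / 2)‖ ^ 2
        + ‖gS S a0 a1 a2 a3 x‖ ^ 2 + ‖gS S a0 a1 a2 a3 (x + 1 / 2)‖ ^ 2)
      ≤ 16 * (‖PS S a0 x‖ ^ 2 + ‖PS S a1 x‖ ^ 2) + 8 * (‖PS S a2 x‖ ^ 2 + ‖PS S a3 x‖ ^ 2)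
        + 8 * ‖QS S a2 a3 x‖ ^ 2 := by
    intro x
    have h := pointwise_up (PS S a0 x) (ec 1 x * PS S a1 x) (ec (1 / 3) x * PS S a2 x)
      (ec (-(1 / 3)) x * PS S a3 x) (QS S a2 a3 x) _ _ _ _
      (fS_one S a0 a1 a2 a3 x) (fS_two S a0 a1 a2 a3 x) (gS_one S a0 a1 a2 a3 x)
      (gS_two S a0 a1 a2 a3 x)
    simpa only [norm_mul, norm_ec, one_mul] using h
  have i1 := int_up cf cf2 cg cg2 (cP a0) (cP a1) (cP a2) (cP a3) cQ hle pt
  refine i1.trans ?_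
  rw [int_PS, int_PS, int_PS, int_PS, int_QS]
  rw [Finset.sum_add_distrib, Finset.sum_add_distrib, Finset.sum_add_distrib]
  linarith

end Pool.Agent.Helper63.RieszBounds
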