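import Pool.Agent.Helper63.RieszBounds

/-! The completeness argument for the exponential system. -/

open MeasureTheory Complex Set

namespace Pool.Agent.Helper63.RieszComplete

open Pool.Agent.Helper63.RieszAux Pool.Agent.Helper63.RieszCore Pool.Agent.Helper63.RieszBounds

theorem memLp_left {t : ℝ} {φ : ℝ → ℂ} (h : MemLp φ 2 (volume.restrict (Ioc t (t + 1)))) :
    MemLp φ 2 (volume.restrict (Ioc t (t + 1 / 2))) :=
  h.mono_measure (Measure.restrict_mono (Ioc_subset_Ioc_right (by linarith)) le_rfl)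

theorem memLp_right {t : ℝ} {φ : ℝ → ℂ} (h : MemLp φ 2 (volume.restrict (Ioc t (t + 1)))) :
    MemLp (fun x => φ (x + 1 / 2)) 2 (volume.restrict (Ioc t (t + 1 / 2))) := by
  have h1 : MemLp φ 2 (volume.restrict (Ioc (t + 1 / 2) (t + 1))) :=
    h.mono_measure (Measure.restrict_mono (Ioc_subset_Ioc_left (by linarith)) le_rfl)
  have mp : MeasurePreserving (fun x : ℝ => x + 1 / 2) volume volume :=
    measurePreserving_add_right volume (1 / 2)
  have mp2 := mp.restrict_preimage (measurableSet_Ioc (a := t + 1 / 2) (b := t + 1))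
  have e : (fun x : ℝ => x + 1 / 2) ⁻¹' Ioc (t + 1 / 2) (t + 1) = Ioc t (t + 1 / 2) := by
    ext x
    simp only [mem_preimage, mem_Ioc]
    constructor
    · rintro ⟨h1, h2⟩; constructor <;> linarith
    · rintro ⟨h1, h2⟩; constructor <;> linarith
  rw [e] at mp2
  exact h1.comp_measurePreserving mp2

/-- twisted folding of a function onto the half interval -/
noncomputable def A (r : ℝ) (φ : ℝ → ℂ) (x : ℝ) : ℂ :=
  ec (-r) x * (φ x + exp (Real.pi * I * ((-r : ℝ) : ℂ)) * φ (x + 1 / 2))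

theorem memLp_ec_mul {a b : ℝ} (r : ℝ) {φ : ℝ → ℂ}
    (h : MemLp φ 2 (volume.restrict (Ioc a b))) :
    MemLp (fun x => ec r x * φ x) 2 (volume.restrict (Ioc a b)) := by
  refine MemLp.of_le h ((continuous_ec r).aestronglyMeasurable.mul h.1) ?_
  filter_upwards with x
  rw [norm_mul, norm_ec, one_mul]

theorem memLp_A {t : ℝ} (r : ℝ) {φ : ℝ → ℂ}
    (h : MemLp φ 2 (volume.restrict (Ioc t (t + 1)))) :
    MemLp (A r φ) 2 (volume.restrict (Ioc t (t + 1 / 2))) :=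
  memLp_ec_mul (-r) ((memLp_left h).add ((memLp_right h).const_mul _))

theorem norm_A (r : ℝ) (φ : ℝ → ℂ) (x : ℝ) :
    ‖A r φ x‖ = ‖φ x + exp (Real.pi * I * ((-r : ℝ) : ℂ)) * φ (x + 1 / 2)‖ := by
  unfold A
  rw [norm_mul, norm_ec, one_mul]

theorem int_of_memLp {a b : ℝ} {φ : ℝ → ℂ} (hab : a ≤ b)
    (h : MemLp φ 2 (volume.restrict (Ioc a b))) : IntervalIntegrable φ volume a b := by
  rw [intervalIntegrable_iff_integrableOn_Ioc_of_le hab]
  exact h.integrable (by norm_num)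

theorem int_sq_of_memLp {a b : ℝ} {φ : ℝ → ℂ} (hab : a ≤ b)
    (h : MemLp φ 2 (volume.restrict (Ioc a b))) :
    IntervalIntegrable (fun x => ‖φ x‖ ^ 2) volume a b := by
  rw [intervalIntegrable_iff_integrableOn_Ioc_of_le hab]
  exact (memLp_two_iff_integrable_sq_norm h.1).1 h

theorem co_A {t : ℝ} (k : ℤ) (r : ℝ) {φ : ℝ → ℂ}
    (h : MemLp φ 2 (volume.restrict (Ioc t (t + 1)))) :
    ∫ x in t..t + 1, ec (-(2 * k + r)) x * φ x = co t k (A r φ) := by
  have hm := memLp_ec_mul (-(2 * k + r)) h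
  have hI := int_of_memLp (by linarith) hm
  have s1 : IntervalIntegrable (fun x => ec (-(2 * k + r)) x * φ x) volume t (t + 1 / 2) :=
    int_of_memLp (by linarith) (memLp_left hm)
  have s2 : IntervalIntegrable (fun x => ec (-(2 * k + r)) x * φ x) volume (t + 1 / 2) (t + 1) := by
    refine int_of_memLp (by linarith) ?_
    exact hm.mono_measure (Measure.restrict_mono (Ioc_subset_Ioc_left (by linarith)) le_rfl)
  rw [split_half_c t s1 s2]
  have s3 : IntervalIntegrable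
      (fun x => ec (-(2 * k + r)) (x + 1 / 2) * φ (x + 1 / 2)) volume t (t + 1 / 2) :=
    int_of_memLp (by linarith) (memLp_right hm)
  rw [← intervalIntegral.integral_add s1 s3]
  unfold co A
  congr 1
  ext x
  have e1 : ec (-(2 * k + r)) x = ec (-(2 * k)) x * ec (-r) x := by
    rw [← ec_add]; congr 1; ring
  have e2 : exp (Real.pi * I * ((-(2 * k + r) : ℝ) : ℂ))
      = exp (Real.pi * I * ((-r : ℝ) : ℂ)) := by
    rw [Complex.exp_eq_exp_iff_exists_int]
    exact ⟨-k, by push_cast; ring⟩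
  rw [ec_half, e2, e1]
  ring

/-- pointwise identity behind completeness -/
theorem pw (u v : ℂ) :
    ‖u + (starRingEnd ℂ) ph * v‖ ^ 2 + ‖u + ph * v‖ ^ 2 = ‖u + v‖ ^ 2 + (‖u‖ ^ 2 + ‖v‖ ^ 2) := by
  simp only [← Complex.normSq_eq_norm_sq]
  rw [Complex.normSq_add, Complex.normSq_add, Complex.normSq_add, Complex.normSq_mul,
    Complex.normSq_mul, Complex.normSq_conj, nsq_ph]
  have h1 : (u * (starRingEnd ℂ) ((starRingEnd ℂ) ph * v)).re
      + (u * (starRingEnd ℂ) (ph * v)).re = (u * (starRingEnd ℂ) v).re := by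
    rw [← Complex.add_re, map_mul, map_mul, Complex.conj_conj]
    have h2 : u * (ph * (starRingEnd ℂ) v) + u * ((starRingEnd ℂ) ph * (starRingEnd ℂ) v)
        = (ph + (starRingEnd ℂ) ph) * (u * (starRingEnd ℂ) v) := by ring
    have h3 : ph + (starRingEnd ℂ) ph = 1 := by
      rw [Complex.add_conj, ph_eq]
      simp
    rw [h2, h3, one_mul]
  linarith

theorem sq_fold (u v : ℂ) :
    ‖u + v‖ ^ 2 + ‖u - v‖ ^ 2 = 2 * (‖u‖ ^ 2 + ‖v‖ ^ 2) := by
  have := parallelogram_law_with_norm ℝ u v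
  nlinarith [this]

theorem complete {t : ℝ} {f g : ℝ → ℂ} (hf : MemLp f 2 (volume.restrict (Ioc t (t + 1))))
    (hg : MemLp g 2 (volume.restrict (Ioc t (t + 1))))
    (H0 : ∀ k : ℤ, (∫ x in t..t + 1, ec (-(2 * k + 0)) x * f x)
      + (∫ x in t..t + 1, ec (-(2 * k + 0)) x * g x) = 0)
    (H1 : ∀ k : ℤ, (∫ x in t..t + 1, ec (-(2 * k + 1)) x * f x)
      + (∫ x in t..t + 1, ec (-(2 * k + 1)) x * g x) = 0)
    (H2 : ∀ k : ℤ, (∫ x in t..t + 1, ec (-(2 * k + 1 / 3)) x * f x)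
      + (∫ x in t..t + 1, ec (-(2 * (2 * k : ℤ) + 0)) x * g x) = 0)
    (H3 : ∀ k : ℤ, (∫ x in t..t + 1, ec (-(2 * k + -(1 / 3))) x * f x)
      + (∫ x in t..t + 1, ec (-(2 * (2 * k + 1 : ℤ) + 0)) x * g x) = 0) :
    (∫ x in t..t + 1, ‖f x‖ ^ 2) = 0 ∧ (∫ x in t..t + 1, ‖g x‖ ^ 2) = 0 := by
  have hle : t ≤ t + 1 / 2 := by linarith
  simp only [co_A _ _ hf, co_A _ _ hg] at H0 H1 H2 H3
  -- splitting of the norms
  have splitf : ∀ φ : ℝ → ℂ, MemLp φ 2 (volume.restrict (Ioc t (t + 1))) →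
      (∫ x in t..t + 1, ‖φ x‖ ^ 2)
        = ∫ x in t..t + 1 / 2, (‖φ x‖ ^ 2 + ‖φ (x + 1 / 2)‖ ^ 2) := by
    intro φ hφ
    have s1 := int_sq_of_memLp hle (memLp_left hφ)
    have s2 : IntervalIntegrable (fun x => ‖φ x‖ ^ 2) volume (t + 1 / 2) (t + 1) :=
      int_sq_of_memLp (by linarith)
        (hφ.mono_measure (Measure.restrict_mono (Ioc_subset_Ioc_left (by linarith)) le_rfl))
    have s3 := int_sq_of_memLp hle (memLp_right hφ)
    rw [split_half t s1 s2, intervalIntegral.integral_add s1 s3]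
  have Af := fun r => memLp_A r hf
  have Ag := fun r => memLp_A r hg
  have P : ∀ r, HasSum (fun k : ℤ => ‖co t k (A r f)‖ ^ 2)
      ((1 / 2) * ∫ x in t..t + 1 / 2, ‖A r f x‖ ^ 2) := fun r => hasSum_co t _ (Af r)
  have Pg : ∀ r, HasSum (fun k : ℤ => ‖co t k (A r g)‖ ^ 2)
      ((1 / 2) * ∫ x in t..t + 1 / 2, ‖A r g x‖ ^ 2) := fun r => hasSum_co t _ (Ag r)
  have expz : exp (Real.pi * I * ((-0 : ℝ) : ℂ)) = 1 := by simp
  have expo : exp (Real.pi * I * ((-1 : ℝ) : ℂ)) = -1 := by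
    have : (Real.pi * I * ((-1 : ℝ) : ℂ)) = -(Real.pi * I) := by push_cast; ring
    rw [this, Complex.exp_neg, Complex.exp_pi_mul_I]
    norm_num
  have expp : exp (Real.pi * I * ((-(1 / 3) : ℝ) : ℂ)) = (starRingEnd ℂ) ph := ph_neg
  have expm : exp (Real.pi * I * ((-(-(1 / 3)) : ℝ) : ℂ)) = ph := by
    rw [neg_neg]; rfl
  -- the two twisted families are dominated by the untwisted one
  have key : (1 / 2) * (∫ x in t..t + 1 / 2, ‖A (1 / 3) f x‖ ^ 2)
      + (1 / 2) * (∫ x in t..t + 1 / 2, ‖A (-(1 / 3)) f x‖ ^ 2)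
      ≤ (1 / 2) * ∫ x in t..t + 1 / 2, ‖A 0 f x‖ ^ 2 := by
    refine hasSum_le_of_sum_le ((P (1 / 3)).add (P (-(1 / 3)))) fun s => ?_
    have h0 : HasSum (fun p : ℤ × Fin 2 => ‖co t (p.1 * (2 : ℕ) + (p.2 : ℕ)) (A 0 f)‖ ^ 2)
        ((1 / 2) * ∫ x in t..t + 1 / 2, ‖A 0 f x‖ ^ 2) := by
      have := (Int.divModEquiv 2).symm.hasSum_iff.mpr (P 0)
      exact this
    have h1 := sum_le_hasSum (s ×ˢ (Finset.univ : Finset (Fin 2)))
      (fun p _ => by positivity) h0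
    rw [Finset.sum_product] at h1
    simp only [Fin.sum_univ_two] at h1
    refine le_trans (le_of_eq ?_) h1
    refine Finset.sum_congr rfl fun k _ => ?_
    have e0 : (k * (2 : ℕ) + ((0 : Fin 2) : ℕ) : ℤ) = 2 * k := by simp; ring
    have e1 : (k * (2 : ℕ) + ((1 : Fin 2) : ℕ) : ℤ) = 2 * k + 1 := by simp; ring
    rw [e0, e1]
    have i1 : co t k (A (1 / 3) f) = co t (2 * k) (A 0 f) := by
      have a := H2 k
      have b := H0 (2 * k)
      rw [eq_neg_of_add_eq_zero_left a, eq_neg_of_add_eq_zero_left b]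
    have i2 : co t k (A (-(1 / 3)) f) = co t (2 * k + 1) (A 0 f) := by
      have a := H3 k
      have b := H0 (2 * k + 1)
      rw [eq_neg_of_add_eq_zero_left a, eq_neg_of_add_eq_zero_left b]
    rw [i1, i2]
  have sA := fun r => int_sq_of_memLp hle (Af r)
  have s1 := int_sq_of_memLp hle (memLp_left hf)
  have s3 := int_sq_of_memLp hle (memLp_right hf)
  have ident : (∫ x in t..t + 1 / 2, ‖A (1 / 3) f x‖ ^ 2)
      + (∫ x in t..t + 1 / 2, ‖A (-(1 / 3)) f x‖ ^ 2)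
      = (∫ x in t..t + 1 / 2, ‖A 0 f x‖ ^ 2)
        + ∫ x in t..t + 1 / 2, (‖f x‖ ^ 2 + ‖f (x + 1 / 2)‖ ^ 2) := by
    rw [← intervalIntegral.integral_add (sA _) (sA _),
      ← intervalIntegral.integral_add (sA _) (s1.add s3)]
    congr 1
    ext x
    rw [norm_A, norm_A, norm_A, expp, expm, expz, one_mul, pw]
  have nonneg : 0 ≤ ∫ x in t..t + 1 / 2, (‖f x‖ ^ 2 + ‖f (x + 1 / 2)‖ ^ 2) :=
    intervalIntegral.integral_nonneg hle fun x _ => by positivity
  have fzero : ∫ x in t..t + 1 / 2, (‖f x‖ ^ 2 + ‖f (x + 1 / 2)‖ ^ 2) = 0 := by linarith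
  have cof : ∀ r, (‖exp (Real.pi * I * ((-r : ℝ) : ℂ))‖ = 1) → ∀ k, co t k (A r f) = 0 := by
    intro r hr k
    have h1 := le_hasSum (P r) k (fun _ _ => by positivity)
    have h2 : (∫ x in t..t + 1 / 2, ‖A r f x‖ ^ 2)
        ≤ ∫ x in t..t + 1 / 2, 2 * (‖f x‖ ^ 2 + ‖f (x + 1 / 2)‖ ^ 2) := by
      refine intervalIntegral.integral_mono hle (sA r) ((s1.add s3).const_mul 2) fun x => ?_
      have := norm_add_sq_le (f x) (exp (Real.pi * I * ((-r : ℝ) : ℂ)) * f (x + 1 / 2))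
      rw [norm_mul, hr, one_mul] at this
      simp only [norm_A]
      linarith
    rw [intervalIntegral.integral_const_mul, fzero, mul_zero] at h2
    have h3 : ‖co t k (A r f)‖ ^ 2 ≤ 0 := by linarith
    have h4 : ‖co t k (A r f)‖ = 0 := by nlinarith [norm_nonneg (co t k (A r f))]
    exact norm_eq_zero.1 h4
  have g0 : ∀ k, co t k (A 0 g) = 0 := by
    intro k
    have := H0 k
    rwa [cof 0 (by rw [expz, norm_one]) k, zero_add] at this
  have g1 : ∀ k, co t k (A 1 g) = 0 := by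
    intro k
    have := H1 k
    rwa [cof 1 (by rw [expo, norm_neg, norm_one]) k, zero_add] at this
  have G0 : (1 / 2) * (∫ x in t..t + 1 / 2, ‖A 0 g x‖ ^ 2) = 0 := by
    have h := Pg 0
    simp only [g0, norm_zero, ne_eq, OfNat.ofNat_ne_zero, not_false_eq_true, zero_pow] at h
    exact h.unique hasSum_zero
  have G1 : (1 / 2) * (∫ x in t..t + 1 / 2, ‖A 1 g x‖ ^ 2) = 0 := by
    have h := Pg 1
    simp only [g1, norm_zero, ne_eq, OfNat.ofNat_ne_zero, not_false_eq_true, zero_pow] at h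
    exact h.unique hasSum_zero
  have sAg := fun r => int_sq_of_memLp hle (Ag r)
  have identg : (∫ x in t..t + 1 / 2, ‖A 0 g x‖ ^ 2) + (∫ x in t..t + 1 / 2, ‖A 1 g x‖ ^ 2)
      = 2 * ∫ x in t..t + 1 / 2, (‖g x‖ ^ 2 + ‖g (x + 1 / 2)‖ ^ 2) := by
    rw [← intervalIntegral.integral_add (sAg _) (sAg _), ← intervalIntegral.integral_const_mul]
    congr 1
    ext x
    rw [norm_A, norm_A, expz, expo, one_mul, neg_one_mul, ← sub_eq_add_neg, sq_fold]
  rw [splitf f hf, splitf g hg]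
  exact ⟨fzero, by linarith⟩

end Pool.Agent.Helper63.RieszComplete
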