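import Pool.Agent.Helper63.RieszAux

/-! Core two-sided estimates for the system, on finite sums. -/

open MeasureTheory Complex Set

namespace Pool.Agent.Helper63.RieszCore

open Pool.Agent.Helper63.RieszAux

/-- the phase `exp (π i / 3)` -/
noncomputable def ph : ℂ := exp (Real.pi * I * ((1 / 3 : ℝ) : ℂ))

theorem ph_eq : ph = ⟨1 / 2, Real.sqrt 3 / 2⟩ := by
  unfold ph
  have : (Real.pi * I * ((1 / 3 : ℝ) : ℂ)) = ((Real.pi / 3 : ℝ) : ℂ) * I := by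
    push_cast; ring
  rw [this, Complex.exp_mul_I, ← Complex.ofReal_cos, ← Complex.ofReal_sin,
    Real.cos_pi_div_three, Real.sin_pi_div_three]
  apply Complex.ext <;> simp

theorem ph_neg : exp (Real.pi * I * ((-(1 / 3) : ℝ) : ℂ)) = (starRingEnd ℂ) ph := by
  unfold ph
  rw [← Complex.exp_conj]
  congr 1
  simp only [map_mul, Complex.conj_I, Complex.conj_ofReal]
  push_cast
  ring

theorem nsq_ph : Complex.normSq ph = 1 := by
  rw [ph_eq, Complex.normSq_apply]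
  have := Real.mul_self_sqrt (show (0 : ℝ) ≤ 3 by norm_num)
  simp only
  nlinarith

theorem norm_ph : ‖ph‖ = 1 := by
  have := nsq_ph
  rw [Complex.normSq_eq_norm_sq] at this
  nlinarith [norm_nonneg ph]

theorem nsq_sub : ‖ph - (starRingEnd ℂ) ph‖ ^ 2 = 3 := by
  rw [← Complex.normSq_eq_norm_sq, ph_eq, Complex.normSq_apply]
  have := Real.mul_self_sqrt (show (0 : ℝ) ≤ 3 by norm_num)
  simp
  try nlinarith

theorem nsq_one_sub : ‖1 - ph‖ ^ 2 = 1 := by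
  rw [← Complex.normSq_eq_norm_sq, ph_eq, Complex.normSq_apply]
  have := Real.mul_self_sqrt (show (0 : ℝ) ≤ 3 by norm_num)
  simp
  try nlinarith

theorem norm_one_sub_star : ‖1 - (starRingEnd ℂ) ph‖ = ‖1 - ph‖ := by
  rw [← Complex.norm_conj (1 - ph)]
  simp

theorem norm_add_sq_le (u v : ℂ) : ‖u + v‖ ^ 2 ≤ 2 * ‖u‖ ^ 2 + 2 * ‖v‖ ^ 2 := by
  have h := norm_add_le u v
  have h0 := norm_nonneg (u + v)
  nlinarith [sq_nonneg (‖u‖ - ‖v‖), norm_nonneg u, norm_nonneg v]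

theorem norm_add_sq_le' (u v : ℂ) : ‖u + v‖ ^ 2 ≤ 5 * ‖u‖ ^ 2 + 5 / 4 * ‖v‖ ^ 2 := by
  have h := norm_add_le u v
  have h0 := norm_nonneg (u + v)
  nlinarith [sq_nonneg (2 * ‖u‖ - ‖v‖ / 2), norm_nonneg u, norm_nonneg v]

theorem norm_sub_sq_le (u v : ℂ) : ‖u - v‖ ^ 2 ≤ 2 * ‖u‖ ^ 2 + 2 * ‖v‖ ^ 2 := by
  have := norm_add_sq_le u (-v)
  rwa [norm_neg, ← sub_eq_add_neg] at this

/-- one unknown of the two-by-two system, `w` is `ph` or its conjugate -/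
theorem solve_one (w X Y Q h1 h2 : ℂ) (hw : ‖w‖ = 1) (hs : ‖w - (starRingEnd ℂ) w‖ ^ 2 = 3)
    (ho : ‖1 - (starRingEnd ℂ) w‖ ^ 2 = 1)
    (e1 : h1 = X + Y - Q) (e2 : h2 = w * X + (starRingEnd ℂ) w * Y - Q) :
    ‖X‖ ^ 2 ≤ 10 / 3 * (‖h1‖ ^ 2 + ‖h2‖ ^ 2) + 5 / 12 * ‖Q‖ ^ 2 := by
  have e : (w - (starRingEnd ℂ) w) * X
      = (h2 - (starRingEnd ℂ) w * h1) + (1 - (starRingEnd ℂ) w) * Q := by
    rw [e1, e2]; ring
  have n : ‖(w - (starRingEnd ℂ) w) * X‖ ^ 2 = 3 * ‖X‖ ^ 2 := by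
    rw [norm_mul, mul_pow, hs]
  rw [e] at n
  have i1 := norm_add_sq_le' (h2 - (starRingEnd ℂ) w * h1) ((1 - (starRingEnd ℂ) w) * Q)
  have i2 := norm_sub_sq_le h2 ((starRingEnd ℂ) w * h1)
  rw [norm_mul, Complex.norm_conj, hw, one_mul] at i2
  rw [norm_mul (1 - (starRingEnd ℂ) w) Q, mul_pow, ho] at i1
  linarith

/-- pointwise estimate for the two twisted families -/
theorem pointwise_XY (X Y Q h1 h2 : ℂ) (e1 : h1 = X + Y - Q)
    (e2 : h2 = ph * X + (starRingEnd ℂ) ph * Y - Q) :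
    ‖X‖ ^ 2 + ‖Y‖ ^ 2 ≤ 20 / 3 * (‖h1‖ ^ 2 + ‖h2‖ ^ 2) + 5 / 6 * ‖Q‖ ^ 2 := by
  have hX := solve_one ph X Y Q h1 h2 norm_ph nsq_sub
    (by rw [norm_one_sub_star, nsq_one_sub]) e1 e2
  have hY := solve_one ((starRingEnd ℂ) ph) Y X Q h1 h2 (by rw [Complex.norm_conj, norm_ph])
    (by rw [Complex.conj_conj, norm_sub_rev, nsq_sub])
    (by rw [Complex.conj_conj, nsq_one_sub]) (by rw [e1]; ring)
    (by rw [Complex.conj_conj, e2]; ring)
  linarith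

/-- sum of squares of the four half-interval values controls everything except `Q` -/
theorem pointwise_low (P0 T1 X Y Q f1 f2 g1 g2 : ℂ)
    (hf1 : f1 = P0 + T1 + X + Y) (hf2 : f2 = P0 - T1 + ph * X + (starRingEnd ℂ) ph * Y)
    (hg1 : g1 = P0 + T1 + Q) (hg2 : g2 = P0 - T1 + Q) :
    (‖X‖ ^ 2 + ‖Y‖ ^ 2 ≤ 40 / 3 * (‖f1‖ ^ 2 + ‖f2‖ ^ 2 + ‖g1‖ ^ 2 + ‖g2‖ ^ 2)
        + 5 / 6 * ‖Q‖ ^ 2) ∧
    (‖P0‖ ^ 2 + ‖T1‖ ^ 2 ≤ (‖f1‖ ^ 2 + ‖f2‖ ^ 2 + ‖g1‖ ^ 2 + ‖g2‖ ^ 2) + 2 * ‖Q‖ ^ 2) := by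
  constructor
  · have h := pointwise_XY X Y Q (f1 - g1) (f2 - g2) (by rw [hf1, hg1]; ring)
      (by rw [hf2, hg2]; ring)
    have i1 := norm_sub_sq_le f1 g1
    have i2 := norm_sub_sq_le f2 g2
    linarith
  · have i1 := norm_sub_sq_le g1 Q
    have i2 := norm_sub_sq_le g2 Q
    have e1 : g1 - Q = P0 + T1 := by rw [hg1]; ring
    have e2 : g2 - Q = P0 - T1 := by rw [hg2]; ring
    rw [e1] at i1
    rw [e2] at i2
    have par : ‖P0 + T1‖ ^ 2 + ‖P0 - T1‖ ^ 2 = 2 * (‖P0‖ ^ 2 + ‖T1‖ ^ 2) := by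
      have := parallelogram_law_with_norm ℝ P0 T1
      nlinarith [this]
    nlinarith [sq_nonneg ‖f1‖, sq_nonneg ‖f2‖, sq_nonneg ‖Q‖]

theorem norm_add4_sq_le (a b c d : ℂ) :
    ‖a + b + c + d‖ ^ 2 ≤ 4 * (‖a‖ ^ 2 + ‖b‖ ^ 2 + ‖c‖ ^ 2 + ‖d‖ ^ 2) := by
  have h1 := norm_add_sq_le (a + b) (c + d)
  have h2 := norm_add_sq_le a b
  have h3 := norm_add_sq_le c d
  rw [← add_assoc] at h1
  linarith

theorem norm_add3_sq_le (a b c : ℂ) :
    ‖a + b + c‖ ^ 2 ≤ 4 * (‖a‖ ^ 2 + ‖b‖ ^ 2 + ‖c‖ ^ 2) := by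
  have := norm_add4_sq_le a b c 0
  simpa using this

theorem pointwise_up (P0 T1 X Y Q f1 f2 g1 g2 : ℂ)
    (hf1 : f1 = P0 + T1 + X + Y) (hf2 : f2 = P0 - T1 + ph * X + (starRingEnd ℂ) ph * Y)
    (hg1 : g1 = P0 + T1 + Q) (hg2 : g2 = P0 - T1 + Q) :
    ‖f1‖ ^ 2 + ‖f2‖ ^ 2 + ‖g1‖ ^ 2 + ‖g2‖ ^ 2
      ≤ 16 * (‖P0‖ ^ 2 + ‖T1‖ ^ 2) + 8 * (‖X‖ ^ 2 + ‖Y‖ ^ 2) + 8 * ‖Q‖ ^ 2 := by
  have a1 := norm_add4_sq_le P0 T1 X Y
  have a2 := norm_add4_sq_le P0 (-T1) (ph * X) ((starRingEnd ℂ) ph * Y)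
  have a3 := norm_add3_sq_le P0 T1 Q
  have a4 := norm_add3_sq_le P0 (-T1) Q
  rw [norm_neg, norm_mul, norm_mul, Complex.norm_conj, norm_ph, one_mul, one_mul,
    ← sub_eq_add_neg] at a2
  rw [norm_neg, ← sub_eq_add_neg] at a4
  rw [hf1, hf2, hg1, hg2]
  linarith

variable (S : Finset ℤ) (a0 a1 a2 a3 : ℤ → ℂ)

/-- first component of the finite sum -/
noncomputable def fS (x : ℝ) : ℂ :=
  ∑ k ∈ S, (a0 k * ec (2 * k) x + a1 k * ec (2 * k + 1) x + a2 k * ec (2 * k + 1 / 3) x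
    + a3 k * ec (2 * k - 1 / 3) x)

/-- second component of the finite sum -/
noncomputable def gS (x : ℝ) : ℂ :=
  ∑ k ∈ S, (a0 k * ec (2 * k) x + a1 k * ec (2 * k + 1) x + a2 k * ec (4 * k) x
    + a3 k * ec (4 * k + 2) x)

noncomputable def PS (a : ℤ → ℂ) (x : ℝ) : ℂ := ∑ k ∈ S, a k * ec (2 * k) x

noncomputable def QS (x : ℝ) : ℂ :=
  ∑ k ∈ S, (a2 k * ec (4 * k) x + a3 k * ec (4 * k + 2) x)

theorem ec_one_half (x : ℝ) : ec 1 (x + 1 / 2) = - ec 1 x := by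
  rw [ec_half]
  simp

theorem fS_one (x : ℝ) : fS S a0 a1 a2 a3 x
    = PS S a0 x + ec 1 x * PS S a1 x + ec (1 / 3) x * PS S a2 x + ec (-(1 / 3)) x * PS S a3 x := by
  unfold fS PS
  simp only [Finset.sum_add_distrib, Finset.mul_sum]
  congr 1
  · congr 1
    · congr 1
      exact Finset.sum_congr rfl fun k _ => by rw [ec_add]; ring
    · exact Finset.sum_congr rfl fun k _ => by rw [ec_add]; ring
  · exact Finset.sum_congr rfl fun k _ => by rw [sub_eq_add_neg, ec_add]; ring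

theorem gS_one (x : ℝ) : gS S a0 a1 a2 a3 x
    = PS S a0 x + ec 1 x * PS S a1 x + QS S a2 a3 x := by
  unfold gS PS QS
  simp only [Finset.sum_add_distrib, Finset.mul_sum]
  rw [← add_assoc]
  congr 1
  congr 1
  congr 1
  exact Finset.sum_congr rfl fun k _ => by rw [ec_add]; ring

theorem PS_half (a : ℤ → ℂ) (x : ℝ) : PS S a (x + 1 / 2) = PS S a x := by
  unfold PS
  exact Finset.sum_congr rfl fun k _ => by rw [ec_int_half]

theorem QS_half (x : ℝ) : QS S a2 a3 (x + 1 / 2) = QS S a2 a3 x := by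
  unfold QS
  refine Finset.sum_congr rfl fun k _ => ?_
  have h1 : (4 * (k : ℝ)) = 2 * ((2 * k : ℤ) : ℝ) := by push_cast; ring
  have h2 : (4 * (k : ℝ) + 2) = 2 * ((2 * k + 1 : ℤ) : ℝ) := by push_cast; ring
  rw [h2, h1, ec_int_half, ec_int_half]

theorem fS_two (x : ℝ) : fS S a0 a1 a2 a3 (x + 1 / 2)
    = PS S a0 x - ec 1 x * PS S a1 x + ph * (ec (1 / 3) x * PS S a2 x)
      + (starRingEnd ℂ) ph * (ec (-(1 / 3)) x * PS S a3 x) := by
  rw [fS_one, PS_half, PS_half, PS_half, PS_half, ec_one_half, ec_half (1 / 3),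
    ec_half (-(1 / 3)), ph_neg]
  unfold ph
  ring

theorem gS_two (x : ℝ) : gS S a0 a1 a2 a3 (x + 1 / 2)
    = PS S a0 x - ec 1 x * PS S a1 x + QS S a2 a3 x := by
  rw [gS_one, PS_half, PS_half, QS_half, ec_one_half]
  ring

theorem continuous_PS (a : ℤ → ℂ) : Continuous (PS S a) := by
  unfold PS
  exact continuous_finsetSum _ fun k _ => continuous_const.mul (continuous_ec _)

theorem continuous_QS : Continuous (QS S a2 a3) := by
  unfold QS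
  exact continuous_finsetSum _ fun k _ =>
    (continuous_const.mul (continuous_ec _)).add (continuous_const.mul (continuous_ec _))

theorem continuous_fS : Continuous (fS S a0 a1 a2 a3) := by
  unfold fS
  exact continuous_finsetSum _ fun k _ =>
    (((continuous_const.mul (continuous_ec _)).add (continuous_const.mul (continuous_ec _))).add
      (continuous_const.mul (continuous_ec _))).add (continuous_const.mul (continuous_ec _))

theorem continuous_gS : Continuous (gS S a0 a1 a2 a3) := by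
  unfold gS
  exact continuous_finsetSum _ fun k _ =>
    (((continuous_const.mul (continuous_ec _)).add (continuous_const.mul (continuous_ec _))).add
      (continuous_const.mul (continuous_ec _))).add (continuous_const.mul (continuous_ec _))

theorem int_PS (t : ℝ) (a : ℤ → ℂ) :
    ∫ x in t..t + 1 / 2, ‖PS S a x‖ ^ 2 = 1 / 2 * ∑ k ∈ S, ‖a k‖ ^ 2 := by
  unfold PS
  exact integral_norm_sq t S id (fun _ _ _ _ h => h) a

theorem int_QS (t : ℝ) :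
    ∫ x in t..t + 1 / 2, ‖QS S a2 a3 x‖ ^ 2
      = 1 / 2 * (∑ k ∈ S, ‖a2 k‖ ^ 2 + ∑ k ∈ S, ‖a3 k‖ ^ 2) := by
  have h := integral_norm_sq t (S ×ˢ (Finset.univ : Finset (Fin 2)))
    (fun p => 2 * p.1 + (p.2 : ℕ)) (by
      rintro ⟨k, i⟩ _ ⟨l, j⟩ _ hkl
      simp only at hkl
      have hi := i.2
      have hj := j.2
      have e1 : (i : ℕ) = j := by omega
      have e2 : k = l := by omega
      exact Prod.ext e2 (Fin.ext e1)) (fun p => if p.2 = 0 then a2 p.1 else a3 p.1)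
  simp only [Finset.sum_product, Fin.sum_univ_two] at h
  rw [← Finset.sum_add_distrib]
  have e : ∀ x, QS S a2 a3 x = ∑ k ∈ S, ((if (0 : Fin 2) = 0 then a2 k else a3 k)
      * ec (2 * ((2 * k + ((0 : Fin 2) : ℕ) : ℤ) : ℝ)) x
      + (if (1 : Fin 2) = 0 then a2 k else a3 k)
      * ec (2 * ((2 * k + ((1 : Fin 2) : ℕ) : ℤ) : ℝ)) x) := by
    intro x
    unfold QS
    refine Finset.sum_congr rfl fun k _ => ?_
    have h1 : (4 * (k : ℝ)) = 2 * ((2 * k + ((0 : Fin 2) : ℕ) : ℤ) : ℝ) := by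
      push_cast; simp; ring
    have h2 : (4 * (k : ℝ) + 2) = 2 * ((2 * k + ((1 : Fin 2) : ℕ) : ℤ) : ℝ) := by
      push_cast; simp; ring
    rw [h2, h1]
    simp
  simp_rw [e]
  rw [h]
  simp

end Pool.Agent.Helper63.RieszCore
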